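import Pool.Agent.U280.OE.Stm

/-!
# Project OE, package N: the constants
-/

set_option autoImplicit false

open MeasureTheory Set

namespace Pool.Agent.U128.OE.N

open Pool.Agent.U280.OD Pool.Agent.U280.OE

theorem vol_pos (d : ℕ) : 0 < (volume (Metric.ball (0 : E d) 1)).toReal :=
  ENNReal.toReal_pos (Metric.measure_ball_pos _ _ one_pos).ne' measure_ball_lt_top.ne

theorem n_one (d : ℕ) (hd : 1 ≤ d) :
    (2 / ((d : ℝ) + 2)) ^ (4 / (d : ℝ)) * ((d : ℝ) / ((d : ℝ) + 2)) ^ 2 /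
      (33 / 80 * (1 / 2 * (8 * Real.pi) ^ (-(d : ℝ) / 2)) ^ (2 / (d : ℝ))) =
    fac2 d * Kcl d := by
  have hd0 : (0 : ℝ) < d := by exact_mod_cast hd
  have hω := vol_pos d
  unfold fac2 Kcl
  generalize (volume (Metric.ball (0 : E d) 1)).toReal = ω at hω ⊢
  have hpi := Real.pi_pos
  have e1 : (1 / 2 * (8 * Real.pi) ^ (-(d : ℝ) / 2)) ^ (2 / (d : ℝ)) =
      (1 / 2) ^ (2 / (d : ℝ)) * (8 * Real.pi)⁻¹ := by
    rw [Real.mul_rpow (by norm_num) (Real.rpow_nonneg (by positivity) _),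
      ← Real.rpow_mul (by positivity), show -(d : ℝ) / 2 * (2 / (d : ℝ)) = -1 by field_simp,
      Real.rpow_neg_one]
  have e2 : (8 * ω / ((d : ℝ) + 2) ^ 2) ^ (2 / (d : ℝ)) =
      (2 / ((d : ℝ) + 2)) ^ (4 / (d : ℝ)) * (2 : ℝ) ^ (2 / (d : ℝ)) * ω ^ (2 / (d : ℝ)) := by
    rw [show (4 : ℝ) / (d : ℝ) = 2 * (2 / (d : ℝ)) by ring, Real.rpow_mul (by positivity),
      ← Real.mul_rpow (by positivity) (by norm_num), ← Real.mul_rpow (by positivity) hω.le]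
    congr 1
    rw [Real.rpow_two]
    field_simp
    ring
  have e3 : ((1 : ℝ) / 2) ^ (2 / (d : ℝ)) * (2 : ℝ) ^ (2 / (d : ℝ)) = 1 := by
    rw [← Real.mul_rpow (by norm_num) (by norm_num)]
    norm_num
  rw [e1, e2]
  have hω' : 0 < ω ^ (2 / (d : ℝ)) := Real.rpow_pos_of_pos hω _
  have h2 : 0 < ((1 : ℝ) / 2) ^ (2 / (d : ℝ)) := Real.rpow_pos_of_pos (by norm_num) _
  have e4 : (2 : ℝ) ^ (2 / (d : ℝ)) = (((1 : ℝ) / 2) ^ (2 / (d : ℝ)))⁻¹ :=
    eq_inv_of_mul_eq_one_right e3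
  rw [e4]
  field_simp
  ring

theorem fac_one : 1.62 ≤ fac2 1 := by
  unfold fac2
  have hv : (volume (Metric.ball (0 : E 1) 1)).toReal = 2 := by
    rw [InnerProductSpace.volume_ball_of_dim_odd (k := 0) (by simp)]
    simp
  rw [hv]
  have hpi := Real.pi_pos
  have h1 := Real.pi_lt_d6
  rw [show (2 : ℝ) / ((1 : ℕ) : ℝ) = 2 by norm_num, Real.rpow_two]
  push_cast
  rw [mul_assoc, div_mul_eq_mul_div, le_div_iff₀ (by positivity)]
  norm_num
  linarith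

theorem fac_two : fac2 2 = 40 / 33 := by
  unfold fac2
  have hv : (volume (Metric.ball (0 : E 2) 1)).toReal = Real.pi := by
    rw [EuclideanSpace.volume_ball_fin_two]
    simp [Real.pi_pos.le]
  rw [hv]
  have hpi := Real.pi_pos
  rw [show (2 : ℝ) / ((2 : ℕ) : ℝ) = 1 by norm_num, Real.rpow_one]
  push_cast
  field_simp
  norm_num

theorem fac_three : 1.12 ≤ fac2 3 := by
  unfold fac2
  have hv : (volume (Metric.ball (0 : E 3) 1)).toReal = Real.pi * 4 / 3 := by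
    rw [EuclideanSpace.volume_ball_fin_three]
    simp
    positivity
  rw [hv]
  have hpi := Real.pi_pos
  have h2 := Real.pi_gt_d6
  have h2' := Real.pi_lt_d6
  obtain ⟨x, hx⟩ : ∃ x, x = 8 * (Real.pi * 4 / 3) / (((3 : ℕ) : ℝ) + 2) ^ 2 := ⟨_, rfl⟩
  rw [← hx]
  have hx0 : 1.34041 ≤ x := by rw [hx]; push_cast; linarith
  have hy : 1.2131 ≤ x ^ (2 / ((3 : ℕ) : ℝ)) := by
    have h3 : (x ^ (2 / ((3 : ℕ) : ℝ))) ^ 3 = x ^ 2 := by
      rw [← Real.rpow_natCast, ← Real.rpow_mul (by linarith), ← Real.rpow_natCast x 2]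
      congr 1
      norm_num
    have h4 : (1.2131 : ℝ) ^ 3 ≤ (x ^ (2 / ((3 : ℕ) : ℝ))) ^ 3 := by
      rw [h3]
      nlinarith
    exact le_of_pow_le_pow_left₀ (by norm_num) (Real.rpow_nonneg (by linarith) _) h4
  generalize x ^ (2 / ((3 : ℕ) : ℝ)) = y at hy ⊢
  push_cast
  rw [mul_assoc, div_mul_eq_mul_div, le_div_iff₀ (by positivity)]
  nlinarith

theorem fac_four : fac2 4 = 320 / 297 := by
  unfold fac2
  have hv : (volume (Metric.ball (0 : E 4) 1)).toReal = Real.pi ^ 2 / 2 := by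
    rw [InnerProductSpace.volume_ball_of_dim_even (k := 2) (by simp)]
    simp [Nat.factorial]
    positivity
  rw [hv]
  have hpi := Real.pi_pos
  have h3 : (8 * (Real.pi ^ 2 / 2) / (((4 : ℕ) : ℝ) + 2) ^ 2) ^ (2 / ((4 : ℕ) : ℝ)) = Real.pi / 3 := by
    rw [show (2 : ℝ) / ((4 : ℕ) : ℝ) = 1 / 2 by norm_num, ← Real.sqrt_eq_rpow,
      show 8 * (Real.pi ^ 2 / 2) / (((4 : ℕ) : ℝ) + 2) ^ 2 = (Real.pi / 3) ^ 2 by push_cast; ring,
      Real.sqrt_sq (by positivity)]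
  rw [h3]
  push_cast
  field_simp
  norm_num

theorem fac_five : 1.03 ≤ fac2 5 := by
  unfold fac2
  have hv : (volume (Metric.ball (0 : E 5) 1)).toReal = 8 * Real.pi ^ 2 / 15 := by
    rw [InnerProductSpace.volume_ball_of_dim_odd (k := 2) (by simp)]
    simp [Nat.doubleFactorial]
    rw [ENNReal.toReal_ofReal (by positivity)]
    ring
  rw [hv]
  have hpi := Real.pi_pos
  have h2 := Real.pi_gt_d6
  have h2' := Real.pi_lt_d6
  obtain ⟨x, hx⟩ : ∃ x, x = 8 * (8 * Real.pi ^ 2 / 15) / (((5 : ℕ) : ℝ) + 2) ^ 2 := ⟨_, rfl⟩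
  rw [← hx]
  have hx0 : 0.859 ≤ x := by rw [hx]; push_cast; nlinarith
  have hy : 0.9345 ≤ x ^ (2 / ((5 : ℕ) : ℝ)) := by
    have h3 : (x ^ (2 / ((5 : ℕ) : ℝ))) ^ 5 = x ^ 2 := by
      rw [← Real.rpow_natCast, ← Real.rpow_mul (by linarith), ← Real.rpow_natCast x 2]
      congr 1
      norm_num
    have h4 : (0.9345 : ℝ) ^ 5 ≤ (x ^ (2 / ((5 : ℕ) : ℝ))) ^ 5 := by
      rw [h3]
      nlinarith
    exact le_of_pow_le_pow_left₀ (by norm_num) (Real.rpow_nonneg (by linarith) _) h4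
  generalize x ^ (2 / ((5 : ℕ) : ℝ)) = y at hy ⊢
  push_cast
  rw [mul_assoc, div_mul_eq_mul_div, le_div_iff₀ (by positivity)]
  nlinarith

theorem fac_six : 1.0005 ≤ fac2 6 := by
  unfold fac2
  have hv : (volume (Metric.ball (0 : E 6) 1)).toReal = Real.pi ^ 3 / 6 := by
    rw [InnerProductSpace.volume_ball_of_dim_even (k := 3) (by simp)]
    simp [Nat.factorial]
    positivity
  rw [hv]
  have hpi := Real.pi_pos
  obtain ⟨x, hx⟩ : ∃ x, x = 8 * (Real.pi ^ 3 / 6) / (((6 : ℕ) : ℝ) + 2) ^ 2 := ⟨_, rfl⟩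
  rw [← hx]
  have hx0 : x = Real.pi ^ 3 / 48 := by rw [hx]; push_cast; ring
  have hx1 : 0 < x := by rw [hx0]; positivity
  have hy : 1.0005 * 11 / 40 * Real.pi ≤ x ^ (2 / ((6 : ℕ) : ℝ)) := by
    have h3 : (x ^ (2 / ((6 : ℕ) : ℝ))) ^ 3 = x := by
      rw [← Real.rpow_natCast, ← Real.rpow_mul hx1.le]
      norm_num
    have h4 : (1.0005 * 11 / 40 * Real.pi) ^ 3 ≤ (x ^ (2 / ((6 : ℕ) : ℝ))) ^ 3 := by
      rw [h3, hx0, mul_pow]
      have h5 : 0 < Real.pi ^ 3 := by positivity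
      have h6 : (1.0005 * 11 / 40 : ℝ) ^ 3 ≤ 1 / 48 := by norm_num
      calc (1.0005 * 11 / 40 : ℝ) ^ 3 * Real.pi ^ 3 ≤ 1 / 48 * Real.pi ^ 3 :=
            mul_le_mul_of_nonneg_right h6 h5.le
        _ = _ := by ring
    exact le_of_pow_le_pow_left₀ (by norm_num) (Real.rpow_nonneg hx1.le _) h4
  generalize x ^ (2 / ((6 : ℕ) : ℝ)) = y at hy ⊢
  push_cast
  rw [mul_assoc, div_mul_eq_mul_div, le_div_iff₀ (by positivity)]
  norm_num at hy ⊢
  linarith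

/-- **package N** -/
theorem t_N : T_N := ⟨n_one, fac_one, fac_two, fac_three, fac_four, fac_five, fac_six⟩

end Pool.Agent.U128.OE.N
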